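import Mathlib

namespace Pool.Agent.Results.MP_93d35c_nt.Disproof

open Filter Topology

lemma pi_sq (x : ℕ) : Nat.primeCounting (x * (x + 2)) = Nat.primeCounting ((x + 1) ^ 2) := by
  have h : (x + 1) ^ 2 = x * (x + 2) + 1 := by ring
  have hnp : ¬ Nat.Prime (x * (x + 2) + 1) := by
    rw [← h]; exact Nat.Prime.not_prime_pow (le_refl 2)
  rw [h]
  unfold Nat.primeCounting Nat.primeCounting'
  rw [Nat.count_succ Nat.Prime (x * (x + 2) + 1), if_neg hnp, add_zero]

lemma pi_le (x : ℕ) : Nat.primeCounting x ≤ x + 1 := by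
  unfold Nat.primeCounting Nat.primeCounting'
  exact Nat.count_le _

theorem result :
    ∀ n₀ : ℕ, ∃ x y : ℕ, n₀ ≤ x ∧ n₀ ≤ y ∧
      Nat.primeCounting (x ^ 2) * Nat.primeCounting (y ^ 2) < Nat.primeCounting (x * y) ^ 2 := by
  intro n₀
  by_contra hcon
  push Not at hcon
  set g : ℕ → ℕ := fun x => Nat.primeCounting (x ^ 2) with hg
  have hlc : ∀ x, n₀ ≤ x → g (x + 1) ^ 2 ≤ g x * g (x + 2) := by
    intro x hx
    have := hcon x (x + 2) hx (by omega)
    rw [pi_sq] at this
    exact this
  have hpos : ∀ x, 2 ≤ x → 0 < g x := by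
    intro x hx
    have : Nat.primeCounting 2 ≤ Nat.primeCounting (x ^ 2) :=
      Nat.monotone_primeCounting (by nlinarith)
    have h2 : Nat.primeCounting 2 = 1 := by decide
    simp only [hg]
    omega
  have hjump : ∃ x, n₀ + 2 ≤ x ∧ g x < g (x + 1) := by
    by_contra hn
    push Not at hn
    have hb : ∀ k, g (n₀ + 2 + k) ≤ g (n₀ + 2) := by
      intro k
      induction k with
      | zero => simp
      | succ k ih => exact (hn (n₀ + 2 + k) (by omega)).trans ih
    obtain ⟨k, hk⟩ := (Nat.tendsto_primeCounting.eventually_gt_atTop (g (n₀ + 2))).exists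
    have : Nat.primeCounting k ≤ g (n₀ + 2 + k) :=
      Nat.monotone_primeCounting ((by omega : k ≤ n₀ + 2 + k).trans (Nat.le_self_pow two_ne_zero _))
    have := hb k
    omega
  obtain ⟨x, hx, hlt⟩ := hjump
  set ρ : ℝ := (g (x + 1) : ℝ) / g x with hρ
  have hgx : (0 : ℝ) < g x := by exact_mod_cast hpos x (by omega)
  have hρ1 : 1 < ρ := by
    rw [hρ, one_lt_div hgx]; exact_mod_cast hlt
  have hstep : ∀ k, ρ * g (x + k) ≤ g (x + k + 1) := by
    intro k
    induction k with
    | zero => simp only [add_zero, hρ]; rw [div_mul_cancel₀ _ hgx.ne']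
    | succ k ih =>
      have h1 : ((g (x + k + 1) : ℝ)) ^ 2 ≤ g (x + k) * g (x + k + 2) := by
        exact_mod_cast hlc (x + k) (by omega)
      have h2 : (0 : ℝ) < g (x + k) := by exact_mod_cast hpos (x + k) (by omega)
      have h3 : (0 : ℝ) < g (x + k + 1) := by exact_mod_cast hpos (x + k + 1) (by omega)
      have e1 : x + (k + 1) = x + k + 1 := by ring
      have e2 : x + k + 1 + 1 = x + k + 2 := by ring
      rw [e1, e2]
      have : (g (x + k) : ℝ) * (ρ * g (x + k + 1)) ≤ g (x + k) * g (x + k + 2) := by nlinarith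
      exact le_of_mul_le_mul_left this h2
  have hexp : ∀ k, ρ ^ k ≤ g (x + k) := by
    intro k
    induction k with
    | zero =>
      simp only [pow_zero, add_zero]
      exact_mod_cast hpos x (by omega)
    | succ k ih =>
      have := hstep k
      rw [pow_succ, ← add_assoc]
      nlinarith
  have hlim := tendsto_pow_const_div_const_pow_of_one_lt 2 hρ1
  obtain ⟨k, hk1, hk2⟩ := ((hlim.eventually (gt_mem_nhds (by norm_num : (0 : ℝ) < 1 / 5))).and
    (eventually_ge_atTop (x + 1))).exists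
  have hρk : 0 < ρ ^ k := by positivity
  rw [div_lt_iff₀ hρk] at hk1
  have h1 : g (x + k) ≤ 5 * k ^ 2 := by
    have := pi_le ((x + k) ^ 2)
    simp only [hg]
    nlinarith
  have h2 : (g (x + k) : ℝ) ≤ 5 * (k : ℝ) ^ 2 := by exact_mod_cast h1
  have := hexp k
  linarith

end Pool.Agent.Results.MP_93d35c_nt.Disproof
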